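import Pool.Agent.KS6_65.PermMod

/-! # The permanent of `[|j-k|^r]` of every order divisible by an odd prime `p`, modulo `p` -/

namespace Pool.Agent.Results.MP_cf7092_nt.AllOrders

open Finset Pool.Agent.KS6_65.PermMod

/-- The `n × n` matrix `[|j-k|^r]`. (The index `j : Fin n` stands for `j + 1`.) -/
def D (r n : ℕ) : Matrix (Fin n) (Fin n) ℤ :=
  Matrix.of fun j k => |((j : ℕ) : ℤ) - ((k : ℕ) : ℤ)| ^ r

theorem cast_D (p r n : ℕ) : (((D r n).permanent : ℤ) : ZMod p) =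
    (Matrix.of fun j k : Fin n => ((|((j : ℕ) : ℤ) - ((k : ℕ) : ℤ)| : ℤ) : ZMod p) ^ r).permanent := by
  unfold Matrix.permanent D
  push_cast
  simp only [Matrix.of_apply]
  push_cast
  rfl

section

variable {p : ℕ} [hp : Fact p.Prime] (h2 : p ≠ 2)
include h2

theorem odd_aux {r : ℕ} (hr : Odd r) {a : ℕ} (ha : 1 ≤ a) (m : ℕ) :
    (((D r (p ^ a * m)).permanent : ℤ) : ZMod p) =
    (Matrix.of fun j k : Fin m => ∑ c ∈ range (p ^ a), (-1 : ZMod p) ^ c *
      ((|((j : ℕ) : ℤ) - ((k : ℕ) : ℤ)| + m * c : ℤ) : ZMod p) ^ r).permanent := by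
  rw [cast_D]
  exact per_eq h2 ha m (fun x => x ^ r) (-1) (by ring) (fun x => by rw [hr.neg_pow]; ring)

theorem odd_case {r : ℕ} (hr : Odd r) {a : ℕ} (ha : 1 ≤ a) (m : ℕ) :
    (((D r (p ^ a * m)).permanent : ℤ) : ZMod p) =
    ((Matrix.of fun j k : Fin m => ∑ c ∈ range p, (-1 : ℤ) ^ c *
      (|((j : ℕ) : ℤ) - ((k : ℕ) : ℤ)| + m * c) ^ r).permanent : ℤ) := by
  rw [odd_aux h2 hr ha m]
  obtain ⟨k, hk⟩ : Odd (p ^ (a - 1)) := (hp.out.odd_of_ne_two h2).pow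
  have h : p ^ a = p * (2 * k + 1) := by
    rw [← hk, ← pow_succ', Nat.sub_add_cancel ha]
  unfold Matrix.permanent
  push_cast
  refine sum_congr rfl fun τ _ => prod_congr rfl fun i _ => ?_
  simp only [Matrix.of_apply]
  rw [h]
  have := alt_sum (hp.out.odd_of_ne_two h2) (fun c =>
    ((|((τ i : ℕ) : ℤ) - ((i : ℕ) : ℤ)| + m * c : ℤ) : ZMod p) ^ r) (fun c => by
      push_cast
      rw [ZMod.natCast_self, add_zero]) k
  push_cast at this ⊢
  exact this

theorem one_case {a : ℕ} (ha : 1 ≤ a) (m : ℕ) :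
    2 ^ m * (((D 1 (p ^ a * m)).permanent : ℤ) : ZMod p) =
    ((Matrix.of fun j k : Fin m =>
      2 * |((j : ℕ) : ℤ) - ((k : ℕ) : ℤ)| - (m : ℤ)).permanent : ℤ) := by
  rw [odd_aux h2 odd_one ha m]
  obtain ⟨s, hs⟩ : Odd (p ^ a) := (hp.out.odd_of_ne_two h2).pow
  have hq : ((p ^ a : ℕ) : ZMod p) = 0 := by
    rw [Nat.cast_pow, ZMod.natCast_self, zero_pow (by omega)]
  have hs' : (2 * (s : ZMod p)) = -1 := by
    rw [hs] at hq
    push_cast at hq
    linear_combination hq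
  unfold Matrix.permanent
  push_cast
  rw [mul_sum]
  refine sum_congr rfl fun τ _ => ?_
  have h3 : (2 : ZMod p) ^ m = ∏ _i : Fin m, 2 := by simp
  rw [h3, ← prod_mul_distrib]
  refine prod_congr rfl fun i _ => ?_
  simp only [Matrix.of_apply]
  rw [hs]
  have := lin_sum ((|((τ i : ℕ) : ℤ) - ((i : ℕ) : ℤ)| : ℤ) : ZMod p) (m : ZMod p) s
  rw [hs'] at this
  simp only [pow_one]
  push_cast at this ⊢
  rw [this]
  ring

omit h2 in
theorem sum_pow {r : ℕ} (hr : r ≠ 0) (x y : ZMod p) (hy : y ≠ 0) :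
    ∑ c ∈ range p, (x + y * (c : ZMod p)) ^ r = if p - 1 ∣ r then -1 else 0 := by
  classical
  have h1 : ∑ c ∈ range p, (x + y * (c : ZMod p)) ^ r = ∑ z : ZMod p, (x + y * z) ^ r := by
    refine Finset.sum_bij (fun c _ => (c : ZMod p)) (fun _ _ => mem_univ _) ?_ ?_ (fun _ _ => rfl)
    · intro c hc d hd h
      rw [ZMod.natCast_eq_natCast_iff] at h
      have hc' := mem_range.1 hc
      have hd' := mem_range.1 hd
      exact Nat.ModEq.eq_of_lt_of_lt h hc' hd'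
    · intro z _
      exact ⟨z.val, mem_range.2 z.val_lt, ZMod.natCast_zmod_val z⟩
  have h2 : ∑ z : ZMod p, (x + y * z) ^ r = ∑ z : ZMod p, z ^ r :=
    Fintype.sum_equiv ((Equiv.mulLeft₀ y hy).trans (Equiv.addLeft x)) _ _ (fun z => rfl)
  rw [h1, h2]
  let φ : (ZMod p)ˣ ↪ ZMod p := ⟨fun x => x, Units.val_injective⟩
  have h3 : univ.map φ = univ \ {0} := by
    ext x
    simp only [mem_map, mem_univ, Function.Embedding.coeFn_mk, true_and, mem_sdiff,
      mem_singleton, φ]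
    exact isUnit_iff_ne_zero
  have h4 := FiniteField.sum_pow_units (ZMod p) r
  rw [ZMod.card] at h4
  rw [← h4, ← sum_sdiff ({0} : Finset (ZMod p)).subset_univ, sum_singleton, zero_pow hr, add_zero,
    ← h3, univ.sum_map φ]
  rfl

theorem even_case {r : ℕ} (hr : Even r) (hr0 : r ≠ 0) {m : ℕ} (hm : 1 ≤ m) :
    (((D r (p * m)).permanent : ℤ) : ZMod p) =
      ((if p - 1 ∣ r then (-1) ^ m * (m.factorial : ℤ) else 0 : ℤ) : ZMod p) := by
  have h := per_eq h2 (le_refl 1) m (fun x : ZMod p => x ^ r) 1 (by ring)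
    (fun x => by rw [hr.neg_pow]; ring)
  rw [← cast_D, pow_one] at h
  rw [h]
  by_cases hpm : p ∣ m
  · have hm0 : (m : ZMod p) = 0 := (ZMod.natCast_eq_zero_iff m p).2 hpm
    have hf0 : ((m.factorial : ℕ) : ZMod p) = 0 :=
      (ZMod.natCast_eq_zero_iff _ p).2 (hpm.trans (Nat.dvd_factorial (by omega) le_rfl))
    have hz : (Matrix.of fun j k : Fin m => ∑ c ∈ range p,
      (1 : ZMod p) ^ c * ((|((j : ℕ) : ℤ) - ((k : ℕ) : ℤ)| + m * c : ℤ) : ZMod p) ^ r) = 0 := by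
      ext j k
      simp [hm0]
    have : Nonempty (Fin m) := ⟨⟨0, hm⟩⟩
    rw [hz, Matrix.permanent_zero]
    split_ifs
    · push_cast
      rw [hf0, mul_zero]
    · simp
  · have hm0 : (m : ZMod p) ≠ 0 := fun h => hpm ((ZMod.natCast_eq_zero_iff m p).1 h)
    have hz : ∀ j k : Fin m, ∑ c ∈ range p, (1 : ZMod p) ^ c *
        ((|((j : ℕ) : ℤ) - ((k : ℕ) : ℤ)| + m * c : ℤ) : ZMod p) ^ r = if p - 1 ∣ r then -1 else 0 := by
      intro j k
      rw [← sum_pow hr0 ((|((j : ℕ) : ℤ) - ((k : ℕ) : ℤ)| : ℤ) : ZMod p) (m : ZMod p) hm0]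
      refine sum_congr rfl fun c _ => ?_
      rw [one_pow, one_mul]
      push_cast
      rfl
    unfold Matrix.permanent
    simp only [Matrix.of_apply, hz]
    split_ifs
    · simp [Fintype.card_perm, mul_comm]
    · have : m ≠ 0 := by omega
      simp [this]

end

/-- Let `p` be an odd prime and `D r n` the matrix `[|j-k|^r]` of order `n`.

(1) (Q1) `per (D 1 p) ≡ -1/2 (mod p)`.
(2) For every power `p^a`, `a ≥ 1`: modulo `p`, the permanents of `[|j-k|]` of the orders `p^a`,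
`2p^a`, `3p^a` are `-1/2`, `1` and `-17/4`.
(3) For every order `p^a m` divisible by `p` (`m` may be divisible by `p` or not) the permanent of
`[|j-k|]` is, modulo `p`, the permanent of order `m` of the matrix `[|j-k| - m/2]`.
(4) For every odd exponent `r`, the permanent of `[|j-k|^r]` of order `p^a m` is, modulo `p`, the
permanent of order `m` of the matrix of the sums `∑_{c<p} (-1)^c (|j-k| + m c)^r`; in particular,
the permanents of the orders `n` and `p n` agree modulo `p` if `p` divides `n`.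
(5) For every even exponent `r > 0` and every order `p m`, `m ≥ 1`, it is `(-1)^m m!` modulo `p` if
`p - 1` divides `r`, and `0` if not. -/
theorem result (p : ℕ) (hp : p.Prime) (h2 : p ≠ 2) :
    2 * (D 1 p).permanent ≡ -1 [ZMOD p] ∧
    (∀ a : ℕ, 1 ≤ a → 2 * (D 1 (p ^ a)).permanent ≡ -1 [ZMOD p] ∧
      (D 1 (p ^ a * 2)).permanent ≡ 1 [ZMOD p] ∧
      4 * (D 1 (p ^ a * 3)).permanent ≡ -17 [ZMOD p]) ∧
    (∀ a m : ℕ, 1 ≤ a → 2 ^ m * (D 1 (p ^ a * m)).permanent ≡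
      (Matrix.of fun j k : Fin m =>
        2 * |((j : ℕ) : ℤ) - ((k : ℕ) : ℤ)| - (m : ℤ)).permanent [ZMOD p]) ∧
    (∀ r a m : ℕ, Odd r → 1 ≤ a → (D r (p ^ a * m)).permanent ≡
      (Matrix.of fun j k : Fin m => ∑ c ∈ range p, (-1 : ℤ) ^ c *
        (|((j : ℕ) : ℤ) - ((k : ℕ) : ℤ)| + m * c) ^ r).permanent [ZMOD p]) ∧
    (∀ r n : ℕ, Odd r → p ∣ n → (D r (p * n)).permanent ≡ (D r n).permanent [ZMOD p]) ∧
    (∀ r m : ℕ, Even r → r ≠ 0 → 1 ≤ m → (D r (p * m)).permanent ≡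
      (if p - 1 ∣ r then (-1) ^ m * (m.factorial : ℤ) else 0) [ZMOD p]) := by
  have : Fact p.Prime := ⟨hp⟩
  have k3 : ∀ a m : ℕ, 1 ≤ a → 2 ^ m * (D 1 (p ^ a * m)).permanent ≡
      (Matrix.of fun j k : Fin m =>
        2 * |((j : ℕ) : ℤ) - ((k : ℕ) : ℤ)| - (m : ℤ)).permanent [ZMOD p] := by
    intro a m ha
    rw [← ZMod.intCast_eq_intCast_iff, ← one_case h2 ha m]
    push_cast
    rfl
  have k4 : ∀ r a m : ℕ, Odd r → 1 ≤ a → (D r (p ^ a * m)).permanent ≡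
      (Matrix.of fun j k : Fin m => ∑ c ∈ range p, (-1 : ℤ) ^ c *
        (|((j : ℕ) : ℤ) - ((k : ℕ) : ℤ)| + m * c) ^ r).permanent [ZMOD p] := by
    intro r a m hr ha
    rw [← ZMod.intCast_eq_intCast_iff, odd_case h2 hr ha m]
  have k2 : ∀ a : ℕ, 1 ≤ a → 2 * (D 1 (p ^ a)).permanent ≡ -1 [ZMOD p] ∧
      (D 1 (p ^ a * 2)).permanent ≡ 1 [ZMOD p] ∧
      4 * (D 1 (p ^ a * 3)).permanent ≡ -17 [ZMOD p] := by
    intro a ha
    have c2 : ∀ x y : ℤ, 2 * x ≡ 2 * y [ZMOD p] → x ≡ y [ZMOD p] := by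
      intro x y h
      rw [Int.modEq_iff_dvd] at h ⊢
      rw [← mul_sub] at h
      have hc : IsCoprime (p : ℤ) 2 := by
        have := (Nat.coprime_primes hp Nat.prime_two).2 h2
        exact_mod_cast Nat.isCoprime_iff_coprime.2 this
      exact hc.dvd_of_dvd_mul_left h
    refine ⟨?_, ?_, ?_⟩
    · have h := k3 a 1 ha
      rw [mul_one] at h
      have e : (Matrix.of fun j k : Fin 1 =>
        2 * |((j : ℕ) : ℤ) - ((k : ℕ) : ℤ)| - ((1 : ℕ) : ℤ)).permanent = -1 := by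
        decide
      rw [e, pow_one] at h
      exact h
    · have h := k3 a 2 ha
      have e : (Matrix.of fun j k : Fin 2 =>
        2 * |((j : ℕ) : ℤ) - ((k : ℕ) : ℤ)| - ((2 : ℕ) : ℤ)).permanent = 2 * (2 * 1) := by
        decide
      rw [e, pow_two, mul_assoc] at h
      exact c2 _ _ (c2 _ _ h)
    · have h := k3 a 3 ha
      have e : (Matrix.of fun j k : Fin 3 =>
        2 * |((j : ℕ) : ℤ) - ((k : ℕ) : ℤ)| - ((3 : ℕ) : ℤ)).permanent = 2 * (-17) := by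
        decide
      rw [e, show (2 : ℤ) ^ 3 = 2 * 4 by norm_num, mul_assoc] at h
      exact c2 _ _ h
  refine ⟨?_, k2, k3, k4, ?_, ?_⟩
  · have := (k2 1 le_rfl).1
    rwa [pow_one] at this
  · intro r n hr hn
    obtain ⟨m, rfl⟩ := hn
    have h1 := k4 r 1 m hr le_rfl
    have h3 := k4 r 2 m hr (by norm_num)
    rw [pow_one] at h1
    rw [pow_two, mul_assoc] at h3
    exact h3.trans h1.symm
  · intro r m hr hr0 hm
    rw [← ZMod.intCast_eq_intCast_iff, even_case h2 hr hr0 hm]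

end Pool.Agent.Results.MP_cf7092_nt.AllOrders
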